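import Mathlib

set_option autoImplicit false

open scoped NNReal
open Filter Topology

namespace Pool.Agent.Results.MP_e93574_an.Yes

universe u

/-- The class `Γ`: continuous, nondecreasing, subadditive maps `[0,∞) → [0,∞)` vanishing only at `0`. -/
def InGamma (γ : ℝ≥0 → ℝ≥0) : Prop :=
  Continuous γ ∧ Monotone γ ∧ (∀ s t, γ (s + t) ≤ γ s + γ t) ∧ γ ⁻¹' {0} = {0}

/-- The class `𝒜`. -/
def InA (θ : ℝ≥0 → ℝ≥0) : Prop :=
  ∃ ε₀ : ℝ≥0, 0 < ε₀ ∧ ∃ γ : ℝ≥0 → ℝ≥0, InGamma γ ∧ ∀ t, θ t ≤ ε₀ → γ t ≤ θ t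

lemma sub_nat (γ : ℝ≥0 → ℝ≥0) (h : ∀ s t, γ (s + t) ≤ γ s + γ t) (t : ℝ≥0) (n : ℕ) :
    γ ((n + 1 : ℕ) * t) ≤ (n + 1 : ℕ) * γ t := by
  induction n with
  | zero => simp
  | succ k ih =>
    have e1 : ((k + 1 + 1 : ℕ) : ℝ≥0) * t = ((k + 1 : ℕ) : ℝ≥0) * t + t := by push_cast; ring
    have e2 : ((k + 1 + 1 : ℕ) : ℝ≥0) * γ t = ((k + 1 : ℕ) : ℝ≥0) * γ t + γ t := by
      push_cast; ring
    rw [e1, e2]
    exact (h _ _).trans (add_le_add ih le_rfl)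

lemma lin (γ : ℝ≥0 → ℝ≥0) (hγ : InGamma γ) (t : ℝ≥0) (ht : t ≤ 1) :
    (γ 1 : ℝ) / 2 * t ≤ γ t := by
  obtain ⟨-, hm, hs, -⟩ := hγ
  rcases eq_or_lt_of_le (zero_le : (0 : ℝ≥0) ≤ t) with h0 | h0
  · rw [← h0]; simp
  have ht' : (0 : ℝ) < t := h0
  have ht1 : (t : ℝ) ≤ 1 := ht
  set n := ⌊1 / (t : ℝ)⌋₊ with hn
  have h1 : (n : ℝ) ≤ 1 / t := Nat.floor_le (by positivity)
  have h2 : 1 / (t : ℝ) < n + 1 := Nat.lt_floor_add_one _
  rw [le_div_iff₀ ht'] at h1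
  rw [div_lt_iff₀ ht'] at h2
  have h3 : (1 : ℝ≥0) ≤ ((n + 1 : ℕ) : ℝ≥0) * t := by
    rw [← NNReal.coe_le_coe]; push_cast; linarith
  have h4 : γ 1 ≤ (n + 1 : ℕ) * γ t := (hm h3).trans (sub_nat γ hs t n)
  have h5 : (γ 1 : ℝ) ≤ (n + 1) * γ t := by exact_mod_cast h4
  have h6 : (0 : ℝ) ≤ γ t := (γ t).2
  have h7 : (γ 1 : ℝ) * t ≤ (n + 1) * γ t * t := mul_le_mul_of_nonneg_right h5 ht'.le
  have h8 : ((n : ℝ) + 1) * t ≤ 2 := by linarith
  nlinarith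

lemma lower (θ : ℝ≥0 → ℝ≥0) (hθ : InA θ) :
    ∃ κ : ℝ, 0 < κ ∧ κ ≤ 1 ∧ ∀ t : ℝ≥0, κ * min (t : ℝ) 1 ≤ θ t := by
  obtain ⟨ε₀, hε, γ, hγ, h⟩ := hθ
  have hγ1 : (0 : ℝ) < γ 1 := by
    have : γ 1 ≠ 0 := by
      intro h0
      have : (1 : ℝ≥0) ∈ γ ⁻¹' {0} := h0
      rw [hγ.2.2.2] at this
      exact one_ne_zero this
    exact_mod_cast pos_iff_ne_zero.mpr this
  have hε' : (0 : ℝ) < ε₀ := hε
  refine ⟨min 1 (min ε₀ (γ 1 / 2)), by positivity, min_le_left _ _, fun t => ?_⟩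
  have hk1 : min (1 : ℝ) (min ε₀ (γ 1 / 2)) ≤ ε₀ := (min_le_right _ _).trans (min_le_left _ _)
  have hk2 : min (1 : ℝ) (min ε₀ (γ 1 / 2)) ≤ γ 1 / 2 :=
    (min_le_right _ _).trans (min_le_right _ _)
  have hk0 : 0 ≤ min (1 : ℝ) (min ε₀ (γ 1 / 2)) := by positivity
  have hm0 : 0 ≤ min (t : ℝ) 1 := le_min t.2 zero_le_one
  have hm1 : min (t : ℝ) 1 ≤ 1 := min_le_right _ _
  by_cases hc : θ t ≤ ε₀
  · have h1 : (γ t : ℝ) ≤ θ t := h t hc
    have h2 := lin γ hγ (min t 1) (min_le_right _ _)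
    have h3 : (γ (min t 1) : ℝ) ≤ γ t := hγ.2.1 (min_le_left _ _)
    have h4 : ((min t 1 : ℝ≥0) : ℝ) = min (t : ℝ) 1 := by push_cast; rfl
    rw [h4] at h2
    have := mul_le_mul_of_nonneg_right hk2 hm0
    linarith
  · have h1 : (ε₀ : ℝ) < θ t := not_le.mp hc
    nlinarith

theorem result (X : Type u) [MetricSpace X] [CompleteSpace X] [Nonempty X]
    (θ : ℝ≥0 → ℝ≥0) (hθ : InA θ) (T : X → Set X)
    (hT : ∀ x, (T x).Nonempty ∧ IsClosed (T x) ∧ Bornology.IsBounded (T x))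
    (hc : ∀ x y, Metric.hausdorffDist (T x) (T y) ≤ dist x y - θ (nndist x y)) :
    ∃ x, x ∈ T x := by
  obtain ⟨κ, hκ, hκ1, hl⟩ := lower θ hθ
  have hfin : ∀ x y, Metric.hausdorffEDist (T x) (T y) ≠ ⊤ := fun x y =>
    Metric.hausdorffEDist_ne_top_of_nonempty_of_bounded (hT x).1 (hT y).1 (hT x).2.2 (hT y).2.2
  by_contra hno
  push Not at hno
  have key : ∀ s : {s : X × X // s.2 ∈ T s.1}, ∃ s' : {s : X × X // s.2 ∈ T s.1},
      s'.1.1 = s.1.2 ∧ dist s'.1.1 s'.1.2 ≤ dist s.1.1 s.1.2 - κ / 2 * min (dist s.1.1 s.1.2) 1 := by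
    rintro ⟨⟨x, y⟩, hxy⟩
    have hne : x ≠ y := by
      rintro rfl
      exact hno x hxy
    have hd : 0 < dist x y := dist_pos.mpr hne
    have hm : 0 < min (dist x y) 1 := lt_min hd one_pos
    have h1 := hc x y
    have h2 := hl (nndist x y)
    rw [coe_nndist] at h2
    have h3 : Metric.hausdorffDist (T x) (T y) < dist x y - κ / 2 * min (dist x y) 1 := by
      nlinarith
    obtain ⟨z, hz, hyz⟩ := Metric.exists_dist_lt_of_hausdorffDist_lt hxy h3 (hfin x y)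
    exact ⟨⟨(y, z), hz⟩, rfl, hyz.le⟩
  choose nx hnx1 hnx2 using key
  obtain ⟨x₀⟩ := ‹Nonempty X›
  obtain ⟨y₀, hy₀⟩ := (hT x₀).1
  set s : ℕ → {s : X × X // s.2 ∈ T s.1} := fun n => nx^[n] ⟨(x₀, y₀), hy₀⟩ with hs
  have hsucc : ∀ n, s (n + 1) = nx (s n) := fun n => Function.iterate_succ_apply' _ _ _
  set M := max (dist x₀ y₀) 1 with hM
  have hM1 : 1 ≤ M := le_max_right _ _
  have hM0 : 0 < M := by linarith
  set r := 1 - κ / (2 * M) with hr
  have hq : 0 < κ / (2 * M) := by positivity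
  have hq1 : κ / (2 * M) ≤ 1 := by rw [div_le_one (by positivity)]; linarith
  have hr0 : 0 ≤ r := by linarith
  have hr1 : r < 1 := by linarith
  have hb : ∀ n, dist (s n).1.1 (s n).1.2 ≤ M * r ^ n := by
    intro n
    induction n with
    | zero => simp only [pow_zero, mul_one]; exact le_max_left _ _
    | succ k ih =>
      rw [hsucc]
      have h1 := hnx2 (s k)
      set d := dist (s k).1.1 (s k).1.2 with hd
      have hd0 : 0 ≤ d := dist_nonneg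
      have hdM : d ≤ M := ih.trans (by
        have : r ^ k ≤ 1 := pow_le_one₀ hr0 hr1.le
        nlinarith)
      have h2 : d / M ≤ min d 1 := by
        apply le_min
        · rw [div_le_iff₀ hM0]; nlinarith
        · rw [div_le_one hM0]; exact hdM
      have h3 : d - κ / 2 * (d / M) = d * r := by rw [hr]; field_simp
      have h4 : κ / 2 * (d / M) ≤ κ / 2 * min d 1 := mul_le_mul_of_nonneg_left h2 (by positivity)
      have h5 : d * r ≤ M * r ^ k * r := mul_le_mul_of_nonneg_right ih hr0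
      rw [pow_succ]
      nlinarith
  set x : ℕ → X := fun n => (s n).1.1 with hx
  have hxs : ∀ n, x (n + 1) = (s n).1.2 := fun n => by
    show (s (n + 1)).1.1 = _
    rw [hsucc, hnx1]
  have hcau : CauchySeq x := by
    apply cauchySeq_of_le_geometric r M hr1
    intro n
    rw [hxs]; exact hb n
  obtain ⟨a, ha⟩ := cauchySeq_tendsto_of_complete hcau
  apply hno a
  rw [(hT a).2.1.mem_iff_infDist_zero (hT a).1]
  apply le_antisymm _ Metric.infDist_nonneg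
  have hle : ∀ n, Metric.infDist a (T a) ≤ dist a (x (n + 1)) + dist (x n) a := by
    intro n
    have h1 : Metric.infDist a (T a) ≤ Metric.infDist a (T (x n)) +
        Metric.hausdorffDist (T (x n)) (T a) := Metric.infDist_le_infDist_add_hausdorffDist (hfin _ _)
    have h2 : Metric.infDist a (T (x n)) ≤ dist a (x (n + 1)) := by
      apply Metric.infDist_le_dist_of_mem
      rw [hxs]; exact (s n).2
    have h3 := hc (x n) a
    have h4 : (0 : ℝ) ≤ θ (nndist (x n) a) := (θ _).2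
    linarith
  have ht : Tendsto (fun n => dist a (x (n + 1)) + dist (x n) a) atTop (𝓝 (dist a a + dist a a)) :=
    (tendsto_const_nhds.dist (ha.comp (tendsto_add_atTop_nat 1))).add (ha.dist tendsto_const_nhds)
  rw [dist_self, add_zero] at ht
  exact ge_of_tendsto' ht hle

end Pool.Agent.Results.MP_e93574_an.Yes
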